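import Mathlib

set_option autoImplicit false

namespace Pool.Agent.Results.MP_51bcab_lc.Counter

/-- The set of factors of words of `L`. -/
def Fac {A : Type} (L : Set (List A)) : Set (List A) := {u | ∃ x y, x ++ u ++ y ∈ L}

/-- The submonoid generated by `X`. -/
def Star {A : Type} (X : Set (List A)) : Set (List A) :=
  {w | ∃ l : List (List A), (∀ y ∈ l, y ∈ X) ∧ l.flatten = w}

def IsSubmonoid {A : Type} (M : Set (List A)) : Prop :=
  [] ∈ M ∧ ∀ u ∈ M, ∀ v ∈ M, u ++ v ∈ M

def MinimalGeneratingSet {A : Type} (X : Set (List A)) : Prop :=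
  [] ∉ X ∧ ∀ l : List (List A), 2 ≤ l.length → (∀ y ∈ l, y ∈ X) → l.flatten ∉ X

def IsMaximalIn {A : Type} (L M : Set (List A)) : Prop :=
  IsSubmonoid M ∧ M ⊆ L ∧ ∀ N, IsSubmonoid N → M ⊆ N → N ⊆ L → N = M

def MinimalFactorGenerator {A : Type} (X : Set (List A)) : Prop :=
  ∀ Y, Y ⊂ X → Fac (Star Y) ≠ Fac (Star X)

/-- `true` is the letter a, `false` is the letter b. -/
def X0 : Set (List Bool) :=
  {[false, false], [true, false, false], [false, false, true], [true, false, false, true],
   [false, false, false], [true, false, false, false], [false, false, false, true],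
   [true, false, false, false, true]}

def Y0 : Set (List Bool) := X0 \ {[false, false, false]}

lemma star_nil {A : Type} (X : Set (List A)) : [] ∈ Star X := ⟨[], by simp, rfl⟩

lemma star_app {A : Type} (X : Set (List A)) {u v : List A} (hu : u ∈ Star X) (hv : v ∈ Star X) :
    u ++ v ∈ Star X := by
  obtain ⟨l1, h1, rfl⟩ := hu
  obtain ⟨l2, h2, rfl⟩ := hv
  refine ⟨l1 ++ l2, ?_, by simp⟩
  intro y hy
  rcases List.mem_append.1 hy with h | h
  · exact h1 y h
  · exact h2 y h

lemma star_of {A : Type} (X : Set (List A)) {u : List A} (hu : u ∈ X) : u ∈ Star X :=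
  ⟨[u], by simpa using hu, by simp⟩

def ok : Bool → Bool → List Bool → Prop
  | _, _, [] => True
  | p, q, z :: t => ¬ (p = true ∧ z = true) ∧ ok q z t

lemma ok_ff : ∀ (w : List Bool) (p q : Bool), ok p q w → ok false false w ∧ ok false q w
  | [], _, _, _ => ⟨trivial, trivial⟩
  | z :: t, _, q, h => ⟨⟨by simp, (ok_ff t q z h.2).2⟩, ⟨by simp, h.2⟩⟩

lemma ok_left : ∀ (u w : List Bool) (p q : Bool), ok p q (u ++ w) → ok false false w
  | [], w, p, q, h => (ok_ff w p q h).1
  | z :: u, w, _, q, h => ok_left u w q z h.2

lemma ok_right : ∀ (w v : List Bool) (p q : Bool), ok p q (w ++ v) → ok p q w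
  | [], _, _, _, _ => trivial
  | z :: w, v, _, q, h => ⟨h.1, ok_right w v q z h.2⟩

lemma ok_star : ∀ l : List (List Bool), (∀ y ∈ l, y ∈ X0) → ok false true l.flatten
  | [], _ => trivial
  | y :: l, h => by
      have ih := ok_star l (fun z hz => h z (by simp [hz]))
      have ih2 := (ok_ff _ _ _ ih).1
      have hy := h y (by simp)
      simp only [X0, Set.mem_insert_iff, Set.mem_singleton_iff] at hy
      rcases hy with rfl | rfl | rfl | rfl | rfl | rfl | rfl | rfl <;> simp [ok, ih, ih2]

lemma ok_fac {w : List Bool} (h : w ∈ Fac (Star X0)) : ok false false w := by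
  obtain ⟨x, y, l, hl, he⟩ := h
  have h1 := ok_star l hl
  rw [he] at h1
  exact ok_left x w _ _ (ok_right _ y _ _ h1)

lemma parse : ∀ (n : ℕ) (t : List Bool), t.length ≤ n →
    (ok false true (t ++ [true, false, false]) → t ∈ Star X0) ∧
    (ok false false (t ++ [true, false, false]) →
      [false, false] ++ t ∈ Star X0 ∧ [true, false, false] ++ t ∈ Star X0) := by
  intro n
  induction n with
  | zero =>
    intro t ht
    have : t = [] := List.length_eq_zero_iff.1 (by omega)
    subst this
    exact ⟨fun _ => star_nil _, fun _ => ⟨star_of _ (by simp [X0]), star_of _ (by simp [X0])⟩⟩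
  | succ n ih =>
    intro t ht
    constructor
    · intro h
      match t, ht, h with
      | [], _, _ => exact star_nil _
      | [z], _, h => simp [ok] at h
      | z :: true :: t, _, h => simp [ok] at h
      | false :: false :: t, ht, h =>
        exact ((ih t (by simp at ht; omega)).2 h.2.2).1
      | [true, false], _, h => simp [ok] at h
      | true :: false :: true :: t, _, h => simp [ok] at h
      | true :: false :: false :: t, ht, h =>
        exact ((ih t (by simp at ht; omega)).2 h.2.2.2).2
    · intro h
      match t, ht, h with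
      | [], _, _ => exact ⟨star_of _ (by simp [X0]), star_of _ (by simp [X0])⟩
      | true :: t, ht, h =>
        have h1 := (ih t (by simp at ht; omega)).1 h.2
        exact ⟨by simpa using star_app X0 (star_of X0 (u := [false, false, true]) (by simp [X0])) h1,
          by simpa using star_app X0 (star_of X0 (u := [true, false, false, true]) (by simp [X0])) h1⟩
      | [false], _, _ => exact ⟨star_of _ (by simp [X0]), star_of _ (by simp [X0])⟩
      | false :: true :: t, ht, h =>
        have h1 := (ih t (by simp at ht; omega)).1 h.2.2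
        have h2 := star_app X0 (star_of X0 (u := [false, false, false, true]) (by simp [X0])) h1
        have h3 := star_app X0 (star_of X0 (u := [true, false, false, false, true]) (by simp [X0])) h1
        exact ⟨by simpa using h2, by simpa using h3⟩
      | false :: false :: t, ht, h =>
        have h1 := ((ih t (by simp at ht; omega)).2 h.2.2).1
        exact ⟨star_app X0 (star_of X0 (u := [false, false]) (by simp [X0])) h1,
          star_app X0 (star_of X0 (u := [true, false, false]) (by simp [X0])) h1⟩

lemma minimal : MinimalGeneratingSet X0 := by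
  have hc : ∀ y ∈ X0, 2 ≤ y.count false ∧ y.count false ≤ 3 := by
    intro y hy
    simp only [X0, Set.mem_insert_iff, Set.mem_singleton_iff] at hy
    rcases hy with rfl | rfl | rfl | rfl | rfl | rfl | rfl | rfl <;> decide
  refine ⟨by simp [X0], ?_⟩
  intro l hl h hx
  match l, hl, h, hx with
  | y :: z :: l, _, h, hx =>
    have h1 := hc y (h y (by simp))
    have h2 := hc z (h z (by simp))
    have h3 := hc _ hx
    simp only [List.flatten_cons, List.count_append] at h3
    omega

lemma maximal : IsMaximalIn (Fac (Star X0)) (Star X0) := by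
  refine ⟨⟨star_nil _, fun u hu v hv => star_app _ hu hv⟩, fun w hw => ⟨[], [], by simpa using hw⟩,
    ?_⟩
  intro N hN h1 h2
  refine Set.Subset.antisymm ?_ h1
  intro w hw
  have ha : [false, false, true] ∈ N := h1 (star_of _ (by simp [X0]))
  have hb : [true, false, false] ∈ N := h1 (star_of _ (by simp [X0]))
  have h3 := ok_fac (h2 (hN.2 _ ha _ (hN.2 _ hw _ hb)))
  exact (parse _ w le_rfl).1 h3.2.2.2

lemma ext_Y : ∀ (l : List (List Bool)), (∀ y ∈ l, y ∈ X0) → ∀ z, z ∈ Star Y0 →
    z ++ [false, false, false] ∈ Star Y0 → z ++ l.flatten ∈ Star Y0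
  | [], _, z, h1, _ => by simpa using h1
  | y :: l, h, z, h1, h2 => by
      have ih := ext_Y l (fun u hu => h u (by simp [hu])) (z ++ y)
      have hy := h y (by simp)
      have bb : [false, false] ∈ Star Y0 := star_of _ (by simp [X0, Y0])
      have abb : [true, false, false] ∈ Star Y0 := star_of _ (by simp [X0, Y0])
      have abbb : [true, false, false, false] ∈ Star Y0 := star_of _ (by simp [X0, Y0])
      have gen : ∀ u ∈ X0, u ≠ [false, false, false] → z ++ u ∈ Star Y0 :=
        fun u hu hne => star_app _ h1 (star_of _ ⟨hu, hne⟩)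
      rw [List.flatten_cons, ← List.append_assoc]
      have hy' := hy
      simp only [X0, Set.mem_insert_iff, Set.mem_singleton_iff] at hy'
      rcases hy' with rfl | rfl | rfl | rfl | rfl | rfl | rfl | rfl
      · exact ih (gen _ hy (by simp)) (by simpa using star_app _ h2 bb)
      · exact ih (gen _ hy (by simp)) (by simpa using star_app _ h1 (star_app _ abbb bb))
      · exact ih (gen _ hy (by simp)) (by simpa using star_app _ h1 (star_app _ bb abbb))
      · exact ih (gen _ hy (by simp)) (by simpa using star_app _ h1 (star_app _ abb abbb))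
      · exact ih h2 (by simpa using star_app _ h1 (star_app _ bb (star_app _ bb bb)))
      · exact ih (gen _ hy (by simp))
          (by simpa using star_app _ h1 (star_app _ abb (star_app _ bb bb)))
      · exact ih (gen _ hy (by simp)) (by simpa using star_app _ h2 abbb)
      · exact ih (gen _ hy (by simp)) (by simpa using star_app _ h1 (star_app _ abbb abbb))

lemma fac_eq : Fac (Star Y0) = Fac (Star X0) := by
  apply Set.Subset.antisymm
  · rintro w ⟨x, y, l, hl, he⟩
    exact ⟨x, y, l, fun u hu => (hl u hu).1, he⟩
  · rintro w ⟨x, y, l, hl, he⟩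
    have bb : [false, false] ∈ Star Y0 := star_of _ (by simp [X0, Y0])
    have abb : [true, false, false] ∈ Star Y0 := star_of _ (by simp [X0, Y0])
    have abbb : [true, false, false, false] ∈ Star Y0 := star_of _ (by simp [X0, Y0])
    have h := ext_Y l hl [true, false, false] abb (by simpa using star_app _ abbb bb)
    rw [he] at h
    exact ⟨[true, false, false] ++ x, y, by simpa using h⟩

theorem result :
    (¬ ∀ (A : Type) [Fintype A] (X : Set (List A)),
      MinimalGeneratingSet X → IsMaximalIn (Fac (Star X)) (Star X) → MinimalFactorGenerator X) ∧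
    ∃ X : Set (List Bool), X.Finite ∧ MinimalGeneratingSet X ∧
      IsMaximalIn (Fac (Star X)) (Star X) ∧ ¬ MinimalFactorGenerator X := by
  have hn : ¬ MinimalFactorGenerator X0 := by
    intro h
    refine h Y0 ⟨fun u hu => hu.1, fun hs => ?_⟩ fac_eq
    have : [false, false, false] ∈ Y0 := hs (by simp [X0])
    exact this.2 rfl
  refine ⟨fun h => hn (h Bool X0 minimal maximal), X0, ?_, minimal, maximal, hn⟩
  unfold X0
  exact Set.toFinite _

end Pool.Agent.Results.MP_51bcab_lc.Counter
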